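import Pool.Agent.H29.BH.Targets1
import Pool.Agent.H48.BG.L2

/-!
# (F2) the complete sum modulo a prime power
-/

set_option autoImplicit false

open NumberField

namespace Pool.Agent.H56.BH

open Pool.Agent.H23.BG Pool.Agent.H23.LB Pool.Agent.H29.TC Pool.Agent.H48.BG Pool.Agent.H29.BH

/-- the three cases -/
private theorem cases2 {Q x A : ℝ} (hQ : 1 ≤ Q) (hx0 : 0 ≤ x) {n e t : ℕ} (y : ℕ → ℝ)
    (two : Prop)
    (hA : (t = 0 ∧ ¬ two ∧ A = 4) ∨ (1 ≤ t ∧ two ∧ Q ^ t ≤ 2 ^ n ∧ A = 4 ^ (n + 1)))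
    (hc : (∃ k, e = 2 * k ∧ x ≤ Q ^ k * y k) ∨
      (∃ r, e = 2 * r + 1 ∧ ¬ two ∧ x ≤ Q ^ r * (Real.sqrt Q * y r + y (r + 1))) ∨
      (∃ r, e = 2 * r + 1 ∧ two ∧ x ≤ Q ^ (r + 1) * y r)) (δ : ℕ)
    (h : ∀ k, y k ^ 2 ≤ 4 * Q ^ (2 * t) * Q ^ δ) : x ^ 2 ≤ A ^ 2 * Q ^ (e + δ) := by
  have hQ0 : (0 : ℝ) ≤ Q := by linarith
  rcases hA with ⟨rfl, hn2, rfl⟩ | ⟨ht, h2, hQt, rfl⟩
  · rcases hc with ⟨k, rfl, hx⟩ | ⟨r, rfl, _, hx⟩ | ⟨r, _, h2, _⟩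
    · refine (num_even hQ hx0 hx (h k)).trans ?_
      rw [show 2 * k + 2 * 0 + δ = 2 * k + δ by ring]
      have : (0 : ℝ) ≤ Q ^ (2 * k + δ) := by positivity
      linarith
    · have h1 : y r ^ 2 ≤ 4 * Q ^ δ := by simpa using h r
      have h2 : y (r + 1) ^ 2 ≤ 4 * Q ^ (δ + 1) := by
        have := h (r + 1)
        simp only [mul_zero, pow_zero, mul_one] at this
        refine this.trans ?_
        gcongr
        omega
      refine (num_odd hQ hx0 hx h1 h2).trans (le_of_eq ?_)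
      norm_num
    · exact absurd h2 hn2
  · have hz : (1 : ℝ) ≤ 2 ^ n := one_le_pow₀ (by norm_num)
    have hQ1 : Q ≤ 2 ^ n := by
      calc Q = Q ^ 1 := (pow_one Q).symm
        _ ≤ Q ^ t := pow_le_pow_right₀ hQ ht
        _ ≤ _ := hQt
    have e4 : ((4 : ℝ) ^ (n + 1)) ^ 2 = 16 * (2 ^ n) ^ 4 := by
      have e5 : (4 : ℝ) ^ (n + 1) = 4 * (2 ^ n) ^ 2 := by
        rw [pow_succ, ← pow_mul, mul_comm n 2, pow_mul]; norm_num; ring
      rw [e5]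
      ring
    have h3 : 4 * Q ^ (2 * t + 1) ≤ ((4 : ℝ) ^ (n + 1)) ^ 2 := by
      calc 4 * Q ^ (2 * t + 1) = 4 * ((Q ^ t) ^ 2 * Q) := by
            rw [pow_add, ← pow_mul, mul_comm t 2, pow_one]
        _ ≤ 4 * ((2 ^ n) ^ 2 * 2 ^ n) := by gcongr
        _ = 4 * (2 ^ n) ^ 3 := by ring
        _ ≤ 16 * (2 ^ n) ^ 4 := by
          have h4 : ((2 : ℝ) ^ n) ^ 3 ≤ (2 ^ n) ^ 4 := pow_le_pow_right₀ hz (by norm_num)
          have h5 : (0 : ℝ) ≤ (2 ^ n) ^ 4 := by positivity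
          linarith
        _ = _ := e4.symm
    rcases hc with ⟨k, rfl, hx⟩ | ⟨r, _, hn2, _⟩ | ⟨r, rfl, _, hx⟩
    · refine (num_even hQ hx0 hx (h k)).trans ?_
      calc 4 * Q ^ (2 * k + 2 * t + δ) = 4 * Q ^ (2 * t) * Q ^ (2 * k + δ) := by
            rw [pow_add, pow_add, pow_add]; ring
        _ ≤ 4 * Q ^ (2 * t + 1) * Q ^ (2 * k + δ) := by
            gcongr
            omega
        _ ≤ _ := by gcongr
    · exact absurd h2 hn2
    · refine (num_even hQ hx0 hx (h r)).trans ?_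
      calc 4 * Q ^ (2 * (r + 1) + 2 * t + δ) = 4 * Q ^ (2 * t + 1) * Q ^ (2 * r + 1 + δ) := by
            rw [mul_assoc, ← pow_add]
            congr 2
            ring
        _ ≤ _ := by gcongr

theorem pf_F_2 (hPN : L_PN) (hLE : L_LE) (hLO : L_LO) (hRT : L_RT) (hRS : L_RS) : F_2 := by
  intro n K _ _ hn P hP h0 e he _ η hη a
  obtain ⟨v, hsym, hul, hle, hd, hmem, hgd, -, -, -⟩ := hPN K P hP h0 e a
  have hN0 : ∀ k : ℕ, Nf K (P ^ k) = Nf K P ^ k := by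
    intro k
    unfold Nf
    rw [map_pow]
    push_cast
    rfl
  have hG : 1 ≤ cG (P ^ e) a := by
    have h1 : (P ^ e ⊔ Ideal.span {a 0 - a 1} ⊔ Ideal.span {a 2 - a 3}) ≠ ⊥ := by
      intro h
      have h2 : P ^ e ≤ ⊥ := h ▸ (le_sup_left.trans le_sup_left)
      exact (pow_ne_zero e (M₀ := Ideal (𝓞 K)) (a := P) h0) (le_bot_iff.1 h2)
    have h2 : Ideal.absNorm (P ^ e ⊔ Ideal.span {a 0 - a 1} ⊔ Ideal.span {a 2 - a 3}) ≠ 0 := by
      rwa [Ne, Ideal.absNorm_eq_zero_iff]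
    unfold cG Nf
    exact_mod_cast Nat.one_le_iff_ne_zero.2 h2
  have hT : cT (P ^ e) a = Nf K P ^ (v 0 2 + v 0 3 + v 1 2 + v 1 3) := by
    have h1 : ∀ i j, Nf K (P ^ e ⊔ Ideal.span {a i - a j}) = Nf K P ^ v i j := by
      intro i j
      have h2 := hgd i j
      unfold gd at h2
      rw [h2, hN0]
    unfold cT
    rw [h1, h1, h1, h1, ← pow_add, ← pow_add, ← pow_add]
  obtain ⟨t, ht1, ht2⟩ := ex_val hP (two_ne_zero : (2 : 𝓞 K) ≠ 0)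
  have hRT' := hRT K P hP h0
  have hQ : 1 ≤ Nf K P := by
    have := q_pos h0
    show (1 : ℝ) ≤ ((Ideal.absNorm P : ℕ) : ℝ)
    exact_mod_cast this
  have hQt : Nf K P ^ t ≤ 2 ^ n := q_two hn ht1
  have hx0 : 0 ≤ ‖c4 η (fun i => Ideal.Quotient.mk (P ^ e) (a i))‖ := norm_nonneg _
  have hxN : ‖c4 η (fun i => Ideal.Quotient.mk (P ^ e) (a i))‖ ≤ Nf K P ^ e := by
    have h1 : ((Fintype.card (𝓞 K ⧸ P ^ e) : ℕ) : ℝ) = Nf K P ^ e := by
      rw [← Nat.card_eq_fintype_card, card_q]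
      unfold Nf
      push_cast
      rfl
    rw [← h1]
    unfold c4
    refine (norm_sum_le _ _).trans ?_
    have h2 : ∀ y ∈ (Finset.univ : Finset (𝓞 K ⧸ P ^ e)),
        ‖η (y + Ideal.Quotient.mk (P ^ e) (a 0)) * η (y + Ideal.Quotient.mk (P ^ e) (a 1)) *
          (starRingEnd ℂ) (η (y + Ideal.Quotient.mk (P ^ e) (a 2))) *
          (starRingEnd ℂ) (η (y + Ideal.Quotient.mk (P ^ e) (a 3)))‖ ≤ 1 := by
      intro y _
      rw [norm_mul, norm_mul, norm_mul, RCLike.norm_conj, RCLike.norm_conj]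
      have n0 := hη.mc.norm_le (y + Ideal.Quotient.mk (P ^ e) (a 0))
      have n1 := hη.mc.norm_le (y + Ideal.Quotient.mk (P ^ e) (a 1))
      have n2 := hη.mc.norm_le (y + Ideal.Quotient.mk (P ^ e) (a 2))
      have n3 := hη.mc.norm_le (y + Ideal.Quotient.mk (P ^ e) (a 3))
      exact mul_le_one₀ (mul_le_one₀ (mul_le_one₀ n0 (norm_nonneg _) n1) (norm_nonneg _) n2)
        (norm_nonneg _) n3
    refine (Finset.sum_le_sum h2).trans ?_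
    simp
  have hA : (t = 0 ∧ ¬ ((2 : 𝓞 K) ∈ P) ∧ Ac K n P = 4) ∨
      (1 ≤ t ∧ ((2 : 𝓞 K) ∈ P) ∧ Nf K P ^ t ≤ 2 ^ n ∧ Ac K n P = 4 ^ (n + 1)) := by
    by_cases h2 : (2 : 𝓞 K) ∈ P
    · right
      refine ⟨?_, h2, hQt, by unfold Ac; rw [if_pos h2]⟩
      by_contra hc
      apply ht2
      rw [show t + 1 = 1 by omega, pow_one]
      exact h2
    · left
      refine ⟨?_, h2, by unfold Ac; rw [if_neg h2]⟩
      by_contra hc
      apply h2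
      have := Ideal.pow_le_pow_right (show 1 ≤ t by omega) ht1
      rwa [pow_one] at this
  have hA1 : 1 ≤ Ac K n P := by
    rcases hA with ⟨_, _, h⟩ | ⟨_, _, _, h⟩
    · rw [h]; norm_num
    · rw [h]; exact one_le_pow₀ (by norm_num)
  have hLE' : ∀ e' : ℕ, e' = e → ∀ r s : ℕ, e' = r + s → r ≤ s → s ≤ r + 1 → 1 ≤ r →
      ‖c4 η (fun i => Ideal.Quotient.mk (P ^ e) (a i))‖ ≤
        Nf K P ^ s * nrt K P r (al a) (be a) (ga a) := by
    intro e' he' r s hrs h1 h2 h3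
    obtain rfl : e = r + s := by omega
    exact hLE K P hP h0 r s h1 h2 h3 η hη a
  have hLO' : ∀ r : ℕ, e = 2 * r + 1 → 1 ≤ r → (2 : 𝓞 K) ∉ P →
      ‖c4 η (fun i => Ideal.Quotient.mk (P ^ e) (a i))‖ ≤
      Nf K P ^ r * (Real.sqrt (Nf K P) * nrt K P r (al a) (be a) (ga a) +
        nrt K P (r + 1) (al a) (be a) (ga a)) := by
    intro r hr h1 h2
    subst hr
    exact hLO K P hP h0 h2 r h1 η hη a
  have hc : (∃ k, e = 2 * k ∧ ‖c4 η (fun i => Ideal.Quotient.mk (P ^ e) (a i))‖ ≤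
        Nf K P ^ k * (fun k => (nrt K P k (al a) (be a) (ga a) : ℝ)) k) ∨
      (∃ r, e = 2 * r + 1 ∧ ¬ ((2 : 𝓞 K) ∈ P) ∧
        ‖c4 η (fun i => Ideal.Quotient.mk (P ^ e) (a i))‖ ≤
        Nf K P ^ r * (Real.sqrt (Nf K P) * (fun k => (nrt K P k (al a) (be a) (ga a) : ℝ)) r +
          (fun k => (nrt K P k (al a) (be a) (ga a) : ℝ)) (r + 1))) ∨
      (∃ r, e = 2 * r + 1 ∧ ((2 : 𝓞 K) ∈ P) ∧
        ‖c4 η (fun i => Ideal.Quotient.mk (P ^ e) (a i))‖ ≤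
        Nf K P ^ (r + 1) * (fun k => (nrt K P k (al a) (be a) (ga a) : ℝ)) r) := by
    rcases Nat.even_or_odd' e with ⟨r, hr | hr⟩
    · exact Or.inl ⟨r, hr, hLE' e rfl r r (by omega) le_rfl (by omega) (by omega)⟩
    · by_cases h2 : (2 : 𝓞 K) ∈ P
      · exact Or.inr (Or.inr ⟨r, hr, h2, hLE' e rfl r (r + 1) (by omega) (by omega) le_rfl
          (by omega)⟩)
      · exact Or.inr (Or.inl ⟨r, hr, h2, hLO' r hr (by omega) h2⟩)
  obtain ⟨hRS1, -⟩ := hRS (𝓞 K) a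
  have htrue : ∀ i j, v i j < e → a i - a j ∉ P ^ (v i j + 1) := by
    intro i j h1 h2
    have := (hmem i j (v i j + 1) h1).mp h2
    omega
  have hQ0 : 0 ≤ Nf K P := by linarith
  refine ⟨by rw [hN0]; exact hxN, ?_⟩
  rw [hN0, hT]
  have key : ‖c4 η (fun i => Ideal.Quotient.mk (P ^ e) (a i))‖ ^ 2 ≤
      Ac K n P ^ 2 * Nf K P ^ (e + (v 0 2 + v 0 3 + v 1 2 + v 1 3)) := by
    by_cases h4 : v 0 2 < e ∧ v 0 3 < e ∧ v 1 2 < e ∧ v 1 3 < e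
    · obtain ⟨h02, h03, h12, h13⟩ := h4
      have hD : be a ^ 2 - al a * ga a ∉ P ^ (v 0 2 + v 0 3 + v 1 2 + v 1 3 + 1) := by
        rw [hRS1]
        have := mul_nmem hP h0 (mul_nmem hP h0 (htrue _ _ h02) (htrue _ _ h03))
          (mul_nmem hP h0 (htrue _ _ h12) (htrue _ _ h13))
        rwa [show v 0 2 + v 0 3 + v 1 2 + v 1 3 + 1 = v 0 2 + v 0 3 + (v 1 2 + v 1 3) + 1 by ring]
      exact cases2 hQ hx0 _ _ hA hc _ fun k => (hRT' k t _ _ _ ht2).2.2 _ hD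
    · have h5 : e ≤ v 0 2 + v 0 3 + v 1 2 + v 1 3 := by
        by_contra hcon
        exact h4 (by omega)
      calc ‖c4 η (fun i => Ideal.Quotient.mk (P ^ e) (a i))‖ ^ 2 ≤ (Nf K P ^ e) ^ 2 :=
            pow_le_pow_left₀ hx0 hxN 2
        _ = Nf K P ^ (e + e) := by rw [← pow_mul]; congr 1; ring
        _ ≤ Nf K P ^ (e + (v 0 2 + v 0 3 + v 1 2 + v 1 3)) :=
            pow_le_pow_right₀ hQ (by omega)
        _ = 1 * Nf K P ^ (e + (v 0 2 + v 0 3 + v 1 2 + v 1 3)) := (one_mul _).symm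
        _ ≤ _ := by
            gcongr
            exact one_le_pow₀ hA1
  calc ‖c4 η (fun i => Ideal.Quotient.mk (P ^ e) (a i))‖ ^ 2 ≤
      Ac K n P ^ 2 * Nf K P ^ (e + (v 0 2 + v 0 3 + v 1 2 + v 1 3)) := key
    _ = Ac K n P ^ 2 * Nf K P ^ e * (Nf K P ^ (v 0 2 + v 0 3 + v 1 2 + v 1 3) * 1) := by
        rw [pow_add]; ring
    _ ≤ _ := by gcongr

end Pool.Agent.H56.BH
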